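import Pool.Agent.Q110.RK.Stm

/-!
# Project RK (helper110), job ICT: the number of isotropic `k`-tuples
-/

set_option autoImplicit false

namespace Pool.Agent.Q150.RK

open Finset Module
open Pool.Agent.Q110.RK

open Classical in
/-- the isotropic tuples in the orthogonal of `U` -/
noncomputable def NK (m k : ℕ) (U : Submodule (ZMod 2) (Vec m)) : Finset (Fin k → Vec m) :=
  univ.filter fun v => (∀ u ∈ U, ∀ i, om u (v i) = 0) ∧ ∀ i j, om (v i) (v j) = 0

open Classical in
theorem mem_NK {m k : ℕ} {U : Submodule (ZMod 2) (Vec m)} {v : Fin k → Vec m} :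
    v ∈ NK m k U ↔ (∀ u ∈ U, ∀ i, om u (v i) = 0) ∧ ∀ i j, om (v i) (v j) = 0 := by
  unfold NK
  rw [mem_filter]
  exact and_iff_right (mem_univ _)

/-- orthogonality to `U + ⟨w⟩` -/
theorem om_sup {m : ℕ} {U : Submodule (ZMod 2) (Vec m)} {w x : Vec m}
    (hU : ∀ u ∈ U, om u x = 0) (hw : om w x = 0) :
    ∀ u ∈ U ⊔ Submodule.span (ZMod 2) {w}, om u x = 0 := by
  intro u hu
  obtain ⟨y, hy, z, hz, rfl⟩ := Submodule.mem_sup.mp hu
  obtain ⟨c, rfl⟩ := Submodule.mem_span_singleton.mp hz
  rw [om_add_left, om_smul_left, hU y hy, hw, mul_zero, add_zero]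

theorem iso_sup {m : ℕ} {U : Submodule (ZMod 2) (Vec m)} {w : Vec m}
    (hU : ∀ u ∈ U, ∀ x ∈ U, om u x = 0) (hw : ∀ u ∈ U, om u w = 0) :
    ∀ u ∈ U ⊔ Submodule.span (ZMod 2) {w}, ∀ x ∈ U ⊔ Submodule.span (ZMod 2) {w},
      om u x = 0 := by
  intro u hu x hx
  have h1 : ∀ x ∈ U, ∀ u ∈ U ⊔ Submodule.span (ZMod 2) {w}, om u x = 0 := fun x hx =>
    om_sup (fun u hu => hU u hu x hx) (by rw [om_comm]; exact hw x hx)
  have h2 : ∀ u ∈ U ⊔ Submodule.span (ZMod 2) {w}, om u w = 0 := om_sup hw (om_self w)
  rw [om_comm]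
  exact om_sup (fun y hy => by rw [om_comm]; exact h1 y hy u hu)
    (by rw [om_comm]; exact h2 u hu) x hx

open Classical in
/-- the tuples with first vector `w` -/
theorem fiber_le {m k : ℕ} {U : Submodule (ZMod 2) (Vec m)} (w : Vec m) :
    #((NK m (k + 1) U).filter fun v => v 0 = w) ≤
      #(NK m k (U ⊔ Submodule.span (ZMod 2) {w})) := by
  refine card_le_card_of_injOn (fun v => Fin.tail v) ?_ ?_
  · intro v hv
    rw [mem_coe, mem_filter, mem_NK] at hv
    obtain ⟨⟨h1, h2⟩, h3⟩ := hv
    show Fin.tail v ∈ NK m k _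
    rw [mem_NK]
    refine ⟨fun u hu i => ?_, fun i j => h2 i.succ j.succ⟩
    exact om_sup (fun u hu => h1 u hu i.succ) (by rw [← h3]; exact h2 0 i.succ) u hu
  · intro v hv v' hv' h
    rw [mem_coe, mem_filter] at hv hv'
    funext i
    refine Fin.cases ?_ (fun j => ?_) i
    · rw [hv.2, hv'.2]
    · exact congrFun h j

open Classical in
theorem card_mem {m : ℕ} (U : Submodule (ZMod 2) (Vec m)) :
    #(univ.filter fun w : Vec m => w ∈ U) = 2 ^ finrank (ZMod 2) U := by
  rw [← card_submodule U, Nat.card_eq_fintype_card, Fintype.card_subtype]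

theorem tri (s : ℕ) : (s + 1) * (s + 1 + 1) / 2 = (s + 1) + s * (s + 1) / 2 := by
  have h1 : (s + 1) * (s + 1 + 1) = s * (s + 1) + (s + 1) * 2 := by ring
  rw [h1, Nat.add_mul_div_right _ _ (by norm_num)]
  ring

open Classical in
theorem main (hiso : S_iso_finrank) (m k : ℕ) : ∀ (U : Submodule (ZMod 2) (Vec m)),
    (∀ u ∈ U, ∀ w ∈ U, om u w = 0) → ∀ s : ℕ, finrank (ZMod 2) U + s = m →
    #(NK m k U) ≤ 2 ^ (k + m * k + s * (s + 1) / 2) := by
  induction k with
  | zero =>
    intro U _ s _
    calc #(NK m 0 U) ≤ #(univ : Finset (Fin 0 → Vec m)) := card_le_card (subset_univ _)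
      _ = 1 := by simp
      _ ≤ _ := Nat.one_le_two_pow
  | succ k ih =>
    intro U hU s hs
    have hU2 : ∀ w, (∀ u ∈ U, om u w = 0) →
        ∀ u ∈ U ⊔ Submodule.span (ZMod 2) {w}, ∀ x ∈ U ⊔ Submodule.span (ZMod 2) {w},
        om u x = 0 := fun w hw => iso_sup hU hw
    have h1 : #(NK m (k + 1) U) = ∑ w ∈ univ.filter (fun w : Vec m => ∀ u ∈ U, om u w = 0),
        #((NK m (k + 1) U).filter fun v => v 0 = w) := by
      refine card_eq_sum_card_fiberwise fun v hv => ?_
      rw [mem_coe, mem_NK] at hv
      rw [mem_coe, mem_filter]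
      exact ⟨mem_univ _, fun u hu => hv.1 u hu 0⟩
    have hsplit : ∑ w ∈ univ.filter (fun w : Vec m => ∀ u ∈ U, om u w = 0),
        #((NK m (k + 1) U).filter fun v => v 0 = w) =
        ∑ w ∈ (univ.filter (fun w : Vec m => ∀ u ∈ U, om u w = 0)).filter (fun w => w ∈ U),
          #((NK m (k + 1) U).filter fun v => v 0 = w) +
        ∑ w ∈ (univ.filter (fun w : Vec m => ∀ u ∈ U, om u w = 0)).filter (fun w => ¬ w ∈ U),
          #((NK m (k + 1) U).filter fun v => v 0 = w) :=
      (sum_filter_add_sum_filter_not _ _ _).symm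
    have hB1 : ∑ w ∈ (univ.filter (fun w : Vec m => ∀ u ∈ U, om u w = 0)).filter
        (fun w => w ∈ U), #((NK m (k + 1) U).filter fun v => v 0 = w) ≤
        2 ^ m * 2 ^ (k + m * k + s * (s + 1) / 2) := by
      calc _ ≤ #((univ.filter (fun w : Vec m => ∀ u ∈ U, om u w = 0)).filter
            (fun w => w ∈ U)) • 2 ^ (k + m * k + s * (s + 1) / 2) := by
            refine sum_le_card_nsmul _ _ _ fun w hw => ?_
            rw [mem_filter] at hw
            refine (fiber_le w).trans ?_
            have h2 : U ⊔ Submodule.span (ZMod 2) {w} = U :=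
              sup_eq_left.mpr ((Submodule.span_singleton_le_iff_mem _ _).mpr hw.2)
            rw [h2]
            exact ih U hU s hs
        _ ≤ _ := by
            rw [smul_eq_mul]
            refine Nat.mul_le_mul_right _ ?_
            calc _ ≤ #(univ.filter fun w : Vec m => w ∈ U) := by
                  refine card_le_card fun w hw => ?_
                  rw [mem_filter] at hw ⊢
                  exact ⟨mem_univ _, hw.2⟩
              _ = 2 ^ finrank (ZMod 2) U := card_mem U
              _ ≤ 2 ^ m := Nat.pow_le_pow_right (by norm_num) (by omega)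
    have hB2 : ∑ w ∈ (univ.filter (fun w : Vec m => ∀ u ∈ U, om u w = 0)).filter
        (fun w => ¬ w ∈ U), #((NK m (k + 1) U).filter fun v => v 0 = w) ≤
        2 ^ m * 2 ^ (k + m * k + s * (s + 1) / 2) := by
      rcases Nat.eq_zero_or_pos s with h0 | hpos
      · -- no such vectors
        have h2 : (univ.filter (fun w : Vec m => ∀ u ∈ U, om u w = 0)).filter
            (fun w => ¬ w ∈ U) = ∅ := by
          rw [filter_eq_empty_iff]
          intro w hw
          rw [mem_filter] at hw
          intro hwU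
          have h3 := hiso m _ (hU2 w hw.2)
          rw [Submodule.finrank_sup_span_singleton hwU] at h3
          omega
        rw [h2, sum_empty]
        exact Nat.zero_le _
      · obtain ⟨t, rfl⟩ : ∃ t, s = t + 1 := ⟨s - 1, by omega⟩
        calc _ ≤ #((univ.filter (fun w : Vec m => ∀ u ∈ U, om u w = 0)).filter
              (fun w => ¬ w ∈ U)) • 2 ^ (k + m * k + t * (t + 1) / 2) := by
              refine sum_le_card_nsmul _ _ _ fun w hw => ?_
              rw [mem_filter, mem_filter] at hw
              refine (fiber_le w).trans ?_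
              refine ih _ (hU2 w hw.1.2) t ?_
              rw [Submodule.finrank_sup_span_singleton hw.2]
              omega
          _ ≤ 2 ^ (m + (t + 1)) * 2 ^ (k + m * k + t * (t + 1) / 2) := by
              rw [smul_eq_mul]
              refine Nat.mul_le_mul_right _ ?_
              calc _ ≤ #(univ.filter fun w : Vec m => w ∈ (omB m).orthogonal U) := by
                    refine card_le_card fun w hw => ?_
                    rw [mem_filter, mem_filter] at hw
                    rw [mem_filter]
                    exact ⟨mem_univ _, (mem_orthogonal U w).mpr hw.1.2⟩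
                _ = 2 ^ finrank (ZMod 2) ((omB m).orthogonal U) := card_mem _
                _ = 2 ^ (m + (t + 1)) := by
                    rw [finrank_orthogonal]
                    congr 1
                    omega
          _ = _ := by
              rw [← pow_add, ← pow_add, tri t]
              congr 1
              ring
    rw [h1, hsplit]
    calc _ ≤ 2 ^ m * 2 ^ (k + m * k + s * (s + 1) / 2) +
          2 ^ m * 2 ^ (k + m * k + s * (s + 1) / 2) := Nat.add_le_add hB1 hB2
      _ = 2 ^ (k + 1 + m * (k + 1) + s * (s + 1) / 2) := by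
          have h3 : k + 1 + m * (k + 1) + s * (s + 1) / 2 =
              1 + (m + (k + m * k + s * (s + 1) / 2)) := by ring
          rw [h3, pow_add 2 1, pow_add 2 m]
          ring

theorem iso_tuples (hiso : S_iso_finrank) : S_iso_tuples := by
  intro m k
  have h1 := main hiso m k ⊥ (by
    intro u hu w _
    rw [(Submodule.mem_bot _).mp hu, om_zero_left]) m (by rw [finrank_bot, zero_add])
  refine le_trans (card_le_card ?_) h1
  intro v hv
  rw [mem_filter] at hv
  rw [mem_NK]
  refine ⟨fun u hu i => ?_, hv.2⟩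
  rw [(Submodule.mem_bot _).mp hu, om_zero_left]

end Pool.Agent.Q150.RK
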